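import Pool.Agent.RAT.A.Grow

/-!
Project RAT (A2): near convexity from the flip identities and small bad sets, and the ratio theorem with rate.
`C n` finite sets, `u w` = number of thin faces, `v w` = number of fat faces, `p` = step (`p = 4` in the application).
-/

namespace Pool.Agent.RAT

open Filter Topology

variable {W : Type*}

private lemma term_le {M a b : ℝ} (hM : 1 ≤ M) (ha : M ≤ a) (hb : M ≤ b) :
    (1 - 1 / M) ^ 2 * (a / (b + 1)) ^ 2 ≤ a * (a - 1) / ((b + 1) * (b + 2)) := by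
  have hM0 : 0 < M := by linarith
  have h1 : (1 - 1 / M) * a ≤ a - 1 := by
    have : 1 ≤ a / M := by rw [le_div_iff₀ hM0]; linarith
    have e : (1 - 1 / M) * a = a - a / M := by ring
    rw [e]
    linarith
  have h2 : (1 - 1 / M) * (b + 2) ≤ b + 1 := by
    have : 1 ≤ (b + 2) / M := by rw [le_div_iff₀ hM0]; linarith
    have e : (1 - 1 / M) * (b + 2) = b + 2 - (b + 2) / M := by ring
    rw [e]
    linarith
  have h3 : 0 ≤ 1 - 1 / M := by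
    rw [sub_nonneg, div_le_one hM0]
    exact hM
  have ha0 : 0 < a := by linarith
  have hb0 : 0 < b := by linarith
  rw [div_pow, ← mul_div_assoc, div_le_div_iff₀ (by positivity) (by positivity)]
  have h4 : ((1 - 1 / M) * a) * ((1 - 1 / M) * (b + 2)) ≤ (a - 1) * (b + 1) :=
    mul_le_mul h1 h2 (by positivity) (le_trans (by positivity) h1)
  have h5 : 0 ≤ a * (b + 1) := by positivity
  nlinarith [mul_le_mul_of_nonneg_left h4 h5]

/-- Near convexity at one `n`. -/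
private lemma conv_one {C C1 C2 : Finset W} {u v : W → ℕ} {M δ N : ℝ} (hM : 1 ≤ M) (_hN : 0 ≤ N)
    (hu : ∀ w ∈ C, (u w : ℝ) ≤ N)
    (id1 : ∑ w ∈ C, (u w : ℝ) / (v w + 1) = ((C1.filter fun w => 1 ≤ v w).card : ℝ))
    (id2 : ∑ w ∈ C, (u w : ℝ) * (u w - 1) / ((v w + 1) * (v w + 2)) = ((C2.filter fun w => 2 ≤ v w).card : ℝ))
    (hb0 : ((C1.filter fun w => v w = 0).card : ℝ) + N * ((C.filter fun w => (u w : ℝ) < M ∨ (v w : ℝ) < M).card : ℝ) ≤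
      δ * (C1.card : ℝ)) (hδ : δ ≤ 1) :
    (1 - 1 / M) ^ 2 * ((1 - δ) * (C1.card : ℝ)) ^ 2 ≤ (C.card : ℝ) * (C2.card : ℝ) := by
  classical
  set G := C.filter fun w => ¬ ((u w : ℝ) < M ∨ (v w : ℝ) < M) with hG
  have hsplit : ((C1.filter fun w => 1 ≤ v w).card : ℝ) + ((C1.filter fun w => v w = 0).card : ℝ) = C1.card := by
    have h := Finset.card_filter_add_card_filter_not (s := C1) (fun w => 1 ≤ v w)
    have e : (C1.filter fun w => ¬ 1 ≤ v w) = C1.filter fun w => v w = 0 := by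
      apply Finset.filter_congr
      intro w _
      omega
    rw [e] at h
    exact_mod_cast h
  have hS : (1 - δ) * (C1.card : ℝ) ≤ ∑ w ∈ G, (u w : ℝ) / (v w + 1) := by
    have h1 : ∑ w ∈ C, (u w : ℝ) / (v w + 1) = ∑ w ∈ C.filter (fun w => (u w : ℝ) < M ∨ (v w : ℝ) < M), (u w : ℝ) / (v w + 1)
        + ∑ w ∈ G, (u w : ℝ) / (v w + 1) := (Finset.sum_filter_add_sum_filter_not _ _ _).symm
    have h2 : ∑ w ∈ C.filter (fun w => (u w : ℝ) < M ∨ (v w : ℝ) < M), (u w : ℝ) / (v w + 1) ≤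
        ∑ _w ∈ C.filter (fun w => (u w : ℝ) < M ∨ (v w : ℝ) < M), N := by
      refine Finset.sum_le_sum fun w hw => ?_
      have h3 := hu w (Finset.mem_filter.1 hw).1
      refine (div_le_self (Nat.cast_nonneg _) ?_).trans h3
      have : (0 : ℝ) ≤ v w := Nat.cast_nonneg _
      linarith
    rw [Finset.sum_const, nsmul_eq_mul, mul_comm] at h2
    linarith
  have hCS : (∑ w ∈ G, (u w : ℝ) / (v w + 1)) ^ 2 ≤ (G.card : ℝ) * ∑ w ∈ G, ((u w : ℝ) / (v w + 1)) ^ 2 :=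
    sq_sum_le_card_mul_sum_sq
  have hGC : (G.card : ℝ) ≤ C.card := by exact_mod_cast Finset.card_le_card (Finset.filter_subset _ _)
  have hterm : (1 - 1 / M) ^ 2 * ∑ w ∈ G, ((u w : ℝ) / (v w + 1)) ^ 2 ≤ (C2.card : ℝ) := by
    rw [Finset.mul_sum]
    calc ∑ w ∈ G, (1 - 1 / M) ^ 2 * ((u w : ℝ) / (v w + 1)) ^ 2
        ≤ ∑ w ∈ G, (u w : ℝ) * (u w - 1) / ((v w + 1) * (v w + 2)) := by
          refine Finset.sum_le_sum fun w hw => ?_
          have h := (Finset.mem_filter.1 hw).2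
          push Not at h
          exact term_le hM h.1 h.2
      _ ≤ ∑ w ∈ C, (u w : ℝ) * (u w - 1) / ((v w + 1) * (v w + 2)) := by
          refine Finset.sum_le_sum_of_subset_of_nonneg (Finset.filter_subset _ _) fun w _ _ => ?_
          rcases Nat.eq_zero_or_pos (u w) with h0 | h0
          · simp [h0]
          · have : (1 : ℝ) ≤ u w := by exact_mod_cast h0
            have h1 : (0 : ℝ) ≤ (u w : ℝ) - 1 := by linarith
            positivity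
      _ = _ := id2
      _ ≤ _ := by exact_mod_cast Finset.card_le_card (Finset.filter_subset _ _)
  have h0 : 0 ≤ (1 - δ) * (C1.card : ℝ) := mul_nonneg (by linarith) (Nat.cast_nonneg _)
  calc (1 - 1 / M) ^ 2 * ((1 - δ) * (C1.card : ℝ)) ^ 2
      ≤ (1 - 1 / M) ^ 2 * (∑ w ∈ G, (u w : ℝ) / (v w + 1)) ^ 2 := by gcongr
    _ ≤ (1 - 1 / M) ^ 2 * ((G.card : ℝ) * ∑ w ∈ G, ((u w : ℝ) / (v w + 1)) ^ 2) := by gcongr
    _ = (G.card : ℝ) * ((1 - 1 / M) ^ 2 * ∑ w ∈ G, ((u w : ℝ) / (v w + 1)) ^ 2) := by ring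
    _ ≤ (C.card : ℝ) * (C2.card : ℝ) := mul_le_mul hGC hterm (by positivity) (Nat.cast_nonneg _)

/-- Comparison of `c n` and `c (n + p)` by the polynomial bounds. -/
private lemma poly_cmp {c : ℕ → ℝ} {μ K : ℝ} (hμ : 0 < μ) (hK : 0 < K) (p : ℕ)
    (hlo : ∀ n : ℕ, 1 ≤ n → (n : ℝ) ^ (-K) / K * μ ^ n ≤ c n) (hup : ∀ n : ℕ, 1 ≤ n → c n ≤ K * (n : ℝ) ^ K * μ ^ n) :
    ∃ k n₀ : ℕ, ∀ n : ℕ, n₀ ≤ n → c n ≤ (n : ℝ) ^ k * c (n + p) := by
  refine ⟨⌈3 * K⌉₊ + 1, max (p + 2) (⌈K ^ 2 / μ ^ p⌉₊), fun n hn => ?_⟩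
  have hn1 : p + 2 ≤ n := (le_max_left _ _).trans hn
  have hn2 : K ^ 2 / μ ^ p ≤ n := by
    have := (le_max_right (p + 2) (⌈K ^ 2 / μ ^ p⌉₊)).trans hn
    exact (Nat.le_ceil _).trans (by exact_mod_cast this)
  have hn0 : (0 : ℝ) < n := by exact_mod_cast (by omega : 0 < n)
  have hn1' : (1 : ℝ) ≤ n := by exact_mod_cast (by omega : 1 ≤ n)
  have hN0 : (0 : ℝ) < ((n + p : ℕ) : ℝ) := by exact_mod_cast (by omega : 0 < n + p)
  have h1 := hup n (by omega)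
  have h2 := hlo (n + p) (by omega)
  have h3 : ((n + p : ℕ) : ℝ) ≤ (n : ℝ) ^ (2 : ℝ) := by
    rw [Real.rpow_two, sq]
    have : n + p ≤ n * n := by nlinarith
    exact_mod_cast this
  have h4 : ((n + p : ℕ) : ℝ) ^ K ≤ (n : ℝ) ^ (2 * K) := by
    rw [Real.rpow_mul hn0.le]
    exact Real.rpow_le_rpow hN0.le h3 hK.le
  have h5 : (n : ℝ) ^ K * ((n + p : ℕ) : ℝ) ^ K ≤ (n : ℝ) ^ (⌈3 * K⌉₊ : ℕ) := by
    calc (n : ℝ) ^ K * ((n + p : ℕ) : ℝ) ^ K ≤ (n : ℝ) ^ K * (n : ℝ) ^ (2 * K) := by gcongr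
      _ = (n : ℝ) ^ (3 * K) := by
        rw [← Real.rpow_add hn0]
        congr 1
        ring
      _ ≤ (n : ℝ) ^ ((⌈3 * K⌉₊ : ℕ) : ℝ) := Real.rpow_le_rpow_of_exponent_le hn1' (Nat.le_ceil _)
      _ = _ := Real.rpow_natCast _ _
  calc c n ≤ K * (n : ℝ) ^ K * μ ^ n := h1
    _ = (K ^ 2 / μ ^ p) * ((n : ℝ) ^ K * ((n + p : ℕ) : ℝ) ^ K) * (((n + p : ℕ) : ℝ) ^ (-K) / K * μ ^ (n + p)) := by
      rw [pow_add, Real.rpow_neg hN0.le]
      have : (((n + p : ℕ) : ℝ)) ^ K ≠ 0 := by positivity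
      field_simp
    _ ≤ (n : ℝ) * (n : ℝ) ^ (⌈3 * K⌉₊ : ℕ) * c (n + p) := by
      gcongr
    _ = _ := by ring

/-- NEAR CONVEXITY. -/
theorem conv_of_ids (C : ℕ → Finset W) (u v : W → ℕ) (p : ℕ) {μ K α : ℝ} (hμ : 0 < μ) (hK : 0 < K) (hα0 : 0 < α)
    (hα : α ≤ 1)
    (hlo : ∀ n : ℕ, 1 ≤ n → (n : ℝ) ^ (-K) / K * μ ^ n ≤ ((C n).card : ℝ))
    (hup : ∀ n : ℕ, 1 ≤ n → ((C n).card : ℝ) ≤ K * (n : ℝ) ^ K * μ ^ n)
    (hu : ∀ n, ∀ w ∈ C n, u w ≤ n + 1)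
    (id1 : ∀ n, ∑ w ∈ C n, (u w : ℝ) / (v w + 1) = (((C (n + p)).filter fun w => 1 ≤ v w).card : ℝ))
    (id2 : ∀ n, ∑ w ∈ C n, (u w : ℝ) * (u w - 1) / ((v w + 1) * (v w + 2)) =
      (((C (n + 2 * p)).filter fun w => 2 ≤ v w).card : ℝ))
    (hbad : ∀ k : ℕ, ∃ n₀ : ℕ, ∀ n : ℕ, n₀ ≤ n →
      (n : ℝ) ^ k * (((C n).filter fun w => (u w : ℝ) < (n : ℝ) ^ α ∨ (v w : ℝ) < (n : ℝ) ^ α).card : ℝ) ≤
        ((C n).card : ℝ)) :
    ∃ n₀ : ℕ, ∀ n : ℕ, n₀ ≤ n →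
      (1 - 4 / (n : ℝ) ^ α) * ((C (n + p)).card : ℝ) ^ 2 ≤ ((C (n + 2 * p)).card : ℝ) * ((C n).card : ℝ) := by
  obtain ⟨k, n₁, hk⟩ := poly_cmp (c := fun n => ((C n).card : ℝ)) hμ hK p hlo hup
  obtain ⟨n₂, h2⟩ := hbad (k + 3)
  refine ⟨max (max n₁ n₂) 4, fun n hn => ?_⟩
  have hn1 : n₁ ≤ n := ((le_max_left _ _).trans (le_max_left _ _)).trans hn
  have hn2 : n₂ ≤ n := ((le_max_right _ _).trans (le_max_left _ _)).trans hn
  have hn4 : 4 ≤ n := (le_max_right _ _).trans hn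
  have hn0 : (0 : ℝ) < n := by exact_mod_cast (by omega : 0 < n)
  have hn1' : (1 : ℝ) ≤ n := by exact_mod_cast (by omega : 1 ≤ n)
  have hn4' : (4 : ℝ) ≤ n := by exact_mod_cast hn4
  set M : ℝ := (n : ℝ) ^ α with hM
  have hM1 : 1 ≤ M := Real.one_le_rpow hn1' hα0.le
  have hMn : M ≤ n := by
    calc (n : ℝ) ^ α ≤ (n : ℝ) ^ (1 : ℝ) := Real.rpow_le_rpow_of_exponent_le hn1' hα
      _ = n := Real.rpow_one _
  have hM0 : 0 < M := by linarith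
  -- the two exceptional sets
  have hz : (((C (n + p)).filter fun w => v w = 0).card : ℝ) ≤ ((C (n + p)).card : ℝ) / (n : ℝ) ^ 3 := by
    rw [le_div_iff₀ (by positivity), mul_comm]
    refine le_trans ?_ (h2 (n + p) (by omega))
    have hNn : (n : ℝ) ≤ ((n + p : ℕ) : ℝ) := by exact_mod_cast (by omega : n ≤ n + p)
    have hN1 : (1 : ℝ) ≤ ((n + p : ℕ) : ℝ) := hn1'.trans hNn
    have hpw : (n : ℝ) ^ 3 ≤ ((n + p : ℕ) : ℝ) ^ (k + 3) := by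
      calc (n : ℝ) ^ 3 ≤ ((n + p : ℕ) : ℝ) ^ 3 := by gcongr
        _ ≤ ((n + p : ℕ) : ℝ) ^ (k + 3) := pow_le_pow_right₀ hN1 (by omega)
    refine mul_le_mul hpw ?_ (Nat.cast_nonneg _) (by positivity)
    exact_mod_cast Finset.card_le_card (fun w hw => by
      rw [Finset.mem_filter] at hw ⊢
      refine ⟨hw.1, Or.inr ?_⟩
      rw [hw.2]
      have : (0 : ℝ) < ((n + p : ℕ) : ℝ) ^ α := by positivity
      simpa using this)
  have hb : ((n : ℝ) + 1) * (((C n).filter fun w => (u w : ℝ) < M ∨ (v w : ℝ) < M).card : ℝ) ≤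
      2 * ((C (n + p)).card : ℝ) / (n : ℝ) ^ 2 := by
    have h3 := h2 n hn2
    have h4 := hk n hn1
    have h5 : (n : ℝ) ^ 3 * (((C n).filter fun w => (u w : ℝ) < M ∨ (v w : ℝ) < M).card : ℝ) ≤ ((C (n + p)).card : ℝ) := by
      have h6 : (n : ℝ) ^ k * ((n : ℝ) ^ 3 * (((C n).filter fun w => (u w : ℝ) < M ∨ (v w : ℝ) < M).card : ℝ)) ≤
          (n : ℝ) ^ k * ((C (n + p)).card : ℝ) := by
        rw [← mul_assoc, ← pow_add]
        exact h3.trans h4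
      exact le_of_mul_le_mul_left h6 (by positivity)
    rw [le_div_iff₀ (by positivity)]
    have h7 : (n : ℝ) + 1 ≤ 2 * n := by linarith
    calc ((n : ℝ) + 1) * (((C n).filter fun w => (u w : ℝ) < M ∨ (v w : ℝ) < M).card : ℝ) * (n : ℝ) ^ 2
        ≤ (2 * n) * (((C n).filter fun w => (u w : ℝ) < M ∨ (v w : ℝ) < M).card : ℝ) * (n : ℝ) ^ 2 := by gcongr
      _ = 2 * ((n : ℝ) ^ 3 * (((C n).filter fun w => (u w : ℝ) < M ∨ (v w : ℝ) < M).card : ℝ)) := by ring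
      _ ≤ _ := by gcongr
  have hc1 : (0 : ℝ) ≤ ((C (n + p)).card : ℝ) := Nat.cast_nonneg _
  have key := conv_one (C := C n) (C1 := C (n + p)) (C2 := C (n + 2 * p)) (u := u) (v := v) (M := M) (δ := 1 / n)
    (N := (n : ℝ) + 1) hM1 (by positivity) (fun w hw => by exact_mod_cast hu n w hw) (id1 n) (id2 n) (by
      have h8 : ((C (n + p)).card : ℝ) / (n : ℝ) ^ 3 ≤ 1 / (4 * n) * ((C (n + p)).card : ℝ) := by
        rw [div_le_iff₀ (by positivity)]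
        have e : 1 / (4 * (n : ℝ)) * ((C (n + p)).card : ℝ) * (n : ℝ) ^ 3 = ((C (n + p)).card : ℝ) * ((n : ℝ) ^ 2 / 4) := by
          field_simp
        rw [e]
        have h20 : (1 : ℝ) ≤ (n : ℝ) ^ 2 / 4 := by nlinarith
        exact le_mul_of_one_le_right hc1 h20
      have h9 : 2 * ((C (n + p)).card : ℝ) / (n : ℝ) ^ 2 ≤ 1 / (2 * n) * ((C (n + p)).card : ℝ) := by
        rw [div_le_iff₀ (by positivity)]
        have e : 1 / (2 * (n : ℝ)) * ((C (n + p)).card : ℝ) * (n : ℝ) ^ 2 = ((C (n + p)).card : ℝ) * ((n : ℝ) / 2) := by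
          field_simp
        rw [e]
        nlinarith
      have e : 1 / (n : ℝ) * ((C (n + p)).card : ℝ) = 1 / (4 * n) * ((C (n + p)).card : ℝ) +
          (1 / (2 * n) * ((C (n + p)).card : ℝ) + 1 / (4 * n) * ((C (n + p)).card : ℝ)) := by
        field_simp
        ring
      have h10 : 0 ≤ 1 / (4 * n) * ((C (n + p)).card : ℝ) := by positivity
      rw [e]
      linarith) (by rw [div_le_one hn0]; exact hn1')
  rw [mul_comm ((C (n + 2 * p)).card : ℝ)]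
  refine le_trans ?_ key
  have h11 : 1 / (n : ℝ) ≤ 1 / M := one_div_le_one_div_of_le hM0 hMn
  have h12 : 0 ≤ 1 - 1 / M := by
    rw [sub_nonneg, div_le_one hM0]
    exact hM1
  have h13 : 1 - 4 / M ≤ (1 - 1 / M) ^ 4 := by
    have := one_add_mul_le_pow (a := -(1 / M)) (by linarith) 4
    calc 1 - 4 / M = 1 + (4 : ℕ) * (-(1 / M)) := by
          push_cast
          ring
      _ ≤ (1 + -(1 / M)) ^ 4 := this
      _ = _ := by ring
  calc (1 - 4 / M) * ((C (n + p)).card : ℝ) ^ 2 ≤ (1 - 1 / M) ^ 4 * ((C (n + p)).card : ℝ) ^ 2 := by gcongr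
    _ = (1 - 1 / M) ^ 2 * ((1 - 1 / M) * ((C (n + p)).card : ℝ)) ^ 2 := by ring
    _ ≤ (1 - 1 / M) ^ 2 * ((1 - 1 / n) * ((C (n + p)).card : ℝ)) ^ 2 := by gcongr

/-- THE RATIO THEOREM WITH RATE, from the flip identities and small bad sets. -/
theorem ratio_of_ids (C : ℕ → Finset W) (u v : W → ℕ) {p : ℕ} (hp : 0 < p) {μ K α β : ℝ} (hμ : 0 < μ) (hK : 0 < K)
    (hα : α ≤ 1) (hβ : 0 < β) (hαβ : 2 * β < α) (hpos : ∀ n, 0 < (C n).card)
    (hlo : ∀ n : ℕ, 1 ≤ n → (n : ℝ) ^ (-K) / K * μ ^ n ≤ ((C n).card : ℝ))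
    (hup : ∀ n : ℕ, 1 ≤ n → ((C n).card : ℝ) ≤ K * (n : ℝ) ^ K * μ ^ n)
    (hu : ∀ n, ∀ w ∈ C n, u w ≤ n + 1)
    (id1 : ∀ n, ∑ w ∈ C n, (u w : ℝ) / (v w + 1) = (((C (n + p)).filter fun w => 1 ≤ v w).card : ℝ))
    (id2 : ∀ n, ∑ w ∈ C n, (u w : ℝ) * (u w - 1) / ((v w + 1) * (v w + 2)) =
      (((C (n + 2 * p)).filter fun w => 2 ≤ v w).card : ℝ))
    (hbad : ∀ k : ℕ, ∃ n₀ : ℕ, ∀ n : ℕ, n₀ ≤ n →
      (n : ℝ) ^ k * (((C n).filter fun w => (u w : ℝ) < (n : ℝ) ^ α ∨ (v w : ℝ) < (n : ℝ) ^ α).card : ℝ) ≤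
        ((C n).card : ℝ)) :
    ∃ A : ℝ, 0 < A ∧ ∀ n : ℕ, 1 ≤ n →
      |((C (n + p)).card : ℝ) / (μ ^ p * ((C n).card : ℝ)) - 1| ≤ A / (n : ℝ) ^ β := by
  obtain ⟨n₀, h⟩ := conv_of_ids C u v p hμ hK (by linarith) hα hlo hup hu id1 id2 hbad
  exact ratio_of_conv (c := fun n => ((C n).card : ℝ)) (fun n => by exact_mod_cast hpos n) hμ hK (by norm_num : (0:ℝ) < 4)
    hα hβ hαβ hp hlo hup h

end Pool.Agent.RAT
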