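import Pool.Agent.RAT.A.Conv

/-!
Project RAT (A3): the flip identities (I1), (I2), (I3) from the double counting formula of the flips (`flip_sum`), and
the ratio theorem with rate in this form. `C n` finite sets of walks, `u w` / `v w` number of thin / fat faces of `w`.
-/

namespace Pool.Agent.RAT

variable {W : Type*}

/-- (I1) -/
theorem flip_id1 {C : ℕ → Finset W} {u v : W → ℕ} {p : ℕ}
    (hfs : ∀ n (G : ℕ → ℕ → ℝ), ∑ w ∈ C n, (u w : ℝ) * G (u w - 1) (v w + 1) = ∑ w ∈ C (n + p), (v w : ℝ) * G (u w) (v w))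
    (n : ℕ) :
    ∑ w ∈ C n, (u w : ℝ) / (v w + 1) = (((C (n + p)).filter fun w => 1 ≤ v w).card : ℝ) := by
  have h := hfs n (fun _ b => 1 / (b : ℝ))
  have e : ∀ w, (u w : ℝ) / (v w + 1) = (u w : ℝ) * (1 / ((v w + 1 : ℕ) : ℝ)) := fun w => by
    push_cast
    rw [mul_one_div]
  simp_rw [e]
  rw [h, Finset.card_filter]
  push_cast
  refine Finset.sum_congr rfl fun w _ => ?_
  rcases Nat.eq_zero_or_pos (v w) with h0 | h0
  · simp [h0]
  · have h1 : (v w : ℝ) ≠ 0 := by exact_mod_cast h0.ne'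
    have h2 : 1 ≤ v w := h0
    rw [mul_one_div, div_self h1, if_pos h2]

/-- (I2) -/
theorem flip_id2 {C : ℕ → Finset W} {u v : W → ℕ} {p : ℕ}
    (hfs : ∀ n (G : ℕ → ℕ → ℝ), ∑ w ∈ C n, (u w : ℝ) * G (u w - 1) (v w + 1) = ∑ w ∈ C (n + p), (v w : ℝ) * G (u w) (v w))
    (n : ℕ) :
    ∑ w ∈ C n, (u w : ℝ) * (u w - 1) / ((v w + 1) * (v w + 2)) =
      (((C (n + 2 * p)).filter fun w => 2 ≤ v w).card : ℝ) := by
  -- first flip
  have h := hfs n (fun a b => (a : ℝ) / ((b : ℝ) * ((b : ℝ) + 1)))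
  have e1 : ∀ w, (u w : ℝ) * (u w - 1) / ((v w + 1) * (v w + 2)) =
      (u w : ℝ) * (((u w - 1 : ℕ) : ℝ) / (((v w + 1 : ℕ) : ℝ) * (((v w + 1 : ℕ) : ℝ) + 1))) := by
    intro w
    rcases Nat.eq_zero_or_pos (u w) with h0 | h0
    · simp [h0]
    · rw [Nat.cast_sub h0]
      push_cast
      rw [mul_div_assoc]
      ring
  simp_rw [e1]
  rw [h]
  -- second flip
  have h' := hfs (n + p) (fun _ b => if b ≤ 1 then 0 else 1 / (b : ℝ))
  have e2 : ∀ w, (v w : ℝ) * ((u w : ℝ) / ((v w : ℝ) * ((v w : ℝ) + 1))) =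
      (u w : ℝ) * (if v w + 1 ≤ 1 then 0 else 1 / ((v w + 1 : ℕ) : ℝ)) := by
    intro w
    rcases Nat.eq_zero_or_pos (v w) with h0 | h0
    · simp [h0]
    · have : (v w : ℝ) ≠ 0 := by exact_mod_cast h0.ne'
      rw [if_neg (by omega)]
      push_cast
      field_simp
  simp_rw [e2]
  rw [h', Finset.card_filter, show n + p + p = n + 2 * p by ring]
  push_cast
  refine Finset.sum_congr rfl fun w _ => ?_
  by_cases h0 : v w ≤ 1
  · rw [if_pos h0, if_neg (by omega), mul_zero]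
  · have : (v w : ℝ) ≠ 0 := by exact_mod_cast (by omega : v w ≠ 0)
    rw [if_neg h0, if_pos (by omega), mul_one_div, div_self this]

/-- (I3) -/
theorem flip_id3 {C : ℕ → Finset W} {u v : W → ℕ} {p : ℕ}
    (hfs : ∀ n (G : ℕ → ℕ → ℝ), ∑ w ∈ C n, (u w : ℝ) * G (u w - 1) (v w + 1) = ∑ w ∈ C (n + p), (v w : ℝ) * G (u w) (v w))
    (n a b : ℕ) :
    a * ((C n).filter fun w => a ≤ u w ∧ v w ≤ b).card ≤
      (b + 1) * ((C (n + p)).filter fun w => a - 1 ≤ u w ∧ v w ≤ b + 1).card := by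
  have h := hfs n (fun c d => if a - 1 ≤ c ∧ d ≤ b + 1 then 1 else 0)
  have h1 : (a : ℝ) * (((C n).filter fun w => a ≤ u w ∧ v w ≤ b).card : ℝ) ≤
      ∑ w ∈ C n, (u w : ℝ) * (if a - 1 ≤ u w - 1 ∧ v w + 1 ≤ b + 1 then 1 else 0) := by
    rw [Finset.card_filter]
    push_cast
    rw [Finset.mul_sum]
    refine Finset.sum_le_sum fun w _ => ?_
    split_ifs with h0 h2 h2
    · have : (a : ℝ) ≤ u w := by exact_mod_cast h0.1
      simpa using this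
    · exact absurd ⟨by omega, by omega⟩ h2
    · simp
    · simp
  have h2 : ∑ w ∈ C (n + p), (v w : ℝ) * (if a - 1 ≤ u w ∧ v w ≤ b + 1 then 1 else 0) ≤
      ((b : ℝ) + 1) * (((C (n + p)).filter fun w => a - 1 ≤ u w ∧ v w ≤ b + 1).card : ℝ) := by
    rw [Finset.card_filter]
    push_cast
    rw [Finset.mul_sum]
    refine Finset.sum_le_sum fun w _ => ?_
    split_ifs with h0
    · have : (v w : ℝ) ≤ b + 1 := by exact_mod_cast h0.2
      simpa using this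
    · simp
  have h3 := h1.trans (h.le.trans h2)
  exact_mod_cast h3

/-- THE RATIO THEOREM WITH RATE, from the double counting formula of the flips and small bad sets. -/
theorem ratio_of_flip (C : ℕ → Finset W) (u v : W → ℕ) {p : ℕ} (hp : 0 < p) {μ K α β : ℝ} (hμ : 0 < μ) (hK : 0 < K)
    (hα : α ≤ 1) (hβ : 0 < β) (hαβ : 2 * β < α) (hpos : ∀ n, 0 < (C n).card)
    (hlo : ∀ n : ℕ, 1 ≤ n → (n : ℝ) ^ (-K) / K * μ ^ n ≤ ((C n).card : ℝ))
    (hup : ∀ n : ℕ, 1 ≤ n → ((C n).card : ℝ) ≤ K * (n : ℝ) ^ K * μ ^ n)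
    (hu : ∀ n, ∀ w ∈ C n, u w ≤ n + 1)
    (hfs : ∀ n (G : ℕ → ℕ → ℝ), ∑ w ∈ C n, (u w : ℝ) * G (u w - 1) (v w + 1) = ∑ w ∈ C (n + p), (v w : ℝ) * G (u w) (v w))
    (hbad : ∀ k : ℕ, ∃ n₀ : ℕ, ∀ n : ℕ, n₀ ≤ n →
      (n : ℝ) ^ k * (((C n).filter fun w => (u w : ℝ) < (n : ℝ) ^ α ∨ (v w : ℝ) < (n : ℝ) ^ α).card : ℝ) ≤
        ((C n).card : ℝ)) :
    ∃ A : ℝ, 0 < A ∧ ∀ n : ℕ, 1 ≤ n →
      |((C (n + p)).card : ℝ) / (μ ^ p * ((C n).card : ℝ)) - 1| ≤ A / (n : ℝ) ^ β :=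
  ratio_of_ids C u v hp hμ hK hα hβ hαβ hpos hlo hup hu (flip_id1 hfs) (flip_id2 hfs) hbad

end Pool.Agent.RAT
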