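import Mathlib

/-!
Project RAT, ratio theorem with rate, analytic part (A1). A positive sequence `c` with
`n^(-K) / K ≤ c n μ^(-n) ≤ K n^K` and `(1 - b n^(-α)) c(n+p)^2 ≤ c(n+2p) c(n)` for large `n` satisfies
`c(n+p) = μ^p c(n) (1 + O(n^(-β)))` for `2 β < α ≤ 1`.
-/

namespace Pool.Agent.RAT

open Filter Topology

/-- Product of ratios. -/
lemma prod_ratio {c : ℕ → ℝ} (hpos : ∀ n, 0 < c n) {μ : ℝ} (hμ : 0 < μ) (p n J : ℕ) :
    ∏ j ∈ Finset.range J, (c (n + p * j + p) / (μ ^ p * c (n + p * j))) = c (n + p * J) / (μ ^ (p * J) * c n) := by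
  induction J with
  | zero => simp [(hpos n).ne']
  | succ J ih =>
    rw [Finset.prod_range_succ, ih]
    have h1 := (hpos n).ne'
    have h2 := (hpos (n + p * J)).ne'
    have h3 : n + p * (J + 1) = n + p * J + p := by ring
    have h4 : p * (J + 1) = p * J + p := by ring
    rw [h3, h4, pow_add]
    field_simp

/-- If the first ratio is at least `1 + d` then all the ratios on a long interval are at least `1 + d / 2`. -/
private lemma up_step {r : ℕ → ℝ} {p n J : ℕ} {x d : ℝ} (hx : 0 ≤ x) (hd : 0 ≤ d) (hd1 : d ≤ 1)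
    (hr : ∀ j < J, (1 - x) * r (n + p * j) ≤ r (n + p * j + p)) (h0 : 1 + d ≤ r n) (hJ : 4 * x * (J : ℝ) ≤ d) :
    ∀ j ≤ J, 1 + d / 2 ≤ r (n + p * j) := by
  by_cases hJ0 : J = 0
  · intro j hj
    have : j = 0 := by omega
    subst this
    simp only [mul_zero, add_zero]
    linarith
  have hJ1 : (1 : ℝ) ≤ J := by exact_mod_cast Nat.one_le_iff_ne_zero.2 hJ0
  have hx1 : 0 ≤ 1 - x := by nlinarith
  have key : ∀ j ≤ J, (1 - x * j) * (1 + d) ≤ r (n + p * j) := by
    intro j
    induction j with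
    | zero => intro _; simpa using h0
    | succ j ih =>
      intro hj
      have h1 := ih (by omega)
      have h2 := hr j (by omega)
      have e : n + p * (j + 1) = n + p * j + p := by ring
      rw [e]
      refine le_trans ?_ ((mul_le_mul_of_nonneg_left h1 hx1).trans h2)
      have : (0 : ℝ) ≤ x * (x * j) := by positivity
      have h1d : 0 ≤ 1 + d := by linarith
      push_cast
      nlinarith [mul_nonneg this h1d]
  intro j hj
  have h1 := key j hj
  have h2 : x * (j : ℝ) ≤ d / 4 := by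
    have : (j : ℝ) ≤ J := by exact_mod_cast hj
    nlinarith
  nlinarith

/-- The same backwards. -/
private lemma dn_step {r : ℕ → ℝ} {p n J : ℕ} {x d : ℝ} (hx : 0 ≤ x) (hd : 0 ≤ d) (hd1 : d ≤ 1)
    (hr : ∀ j < J, (1 - x) * r (n + p * j) ≤ r (n + p * j + p)) (hrp : ∀ j, 0 < r j)
    (h0 : r (n + p * J) ≤ 1 - d) (hJ : 4 * x * (J : ℝ) ≤ d) :
    ∀ j ≤ J, r (n + p * j) ≤ 1 - d / 2 := by
  by_cases hJ0 : J = 0
  · intro j hj
    have : j = 0 := by omega
    subst this
    subst hJ0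
    simp only [mul_zero, add_zero] at h0 ⊢
    linarith
  have hJ1 : (1 : ℝ) ≤ J := by exact_mod_cast Nat.one_le_iff_ne_zero.2 hJ0
  have hx1 : 0 ≤ 1 - x := by nlinarith
  have key : ∀ i ≤ J, (1 - x * i) * r (n + p * (J - i)) ≤ 1 - d := by
    intro i
    induction i with
    | zero => intro _; simpa using h0
    | succ i ih =>
      intro hi
      have h1 := ih (by omega)
      have h2 := hr (J - (i + 1)) (by omega)
      have e : n + p * (J - (i + 1)) + p = n + p * (J - i) := by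
        obtain ⟨k, hk⟩ : ∃ k, J = k + (i + 1) := ⟨J - (i + 1), by omega⟩
        have h3 : J - (i + 1) = k := by omega
        have h4 : J - i = k + 1 := by omega
        rw [h3, h4]
        ring
      rw [e] at h2
      have hi' : x * (i : ℝ) ≤ d / 4 := by
        have : (i : ℝ) ≤ J := by exact_mod_cast (by omega : i ≤ J)
        nlinarith
      have h3 : 0 ≤ 1 - x * (i : ℝ) := by linarith
      refine le_trans ?_ ((mul_le_mul_of_nonneg_left h2 h3).trans h1)
      have h4 := hrp (n + p * (J - (i + 1)))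
      have : (0 : ℝ) ≤ x * (x * i) := by positivity
      push_cast
      nlinarith [mul_nonneg this h4.le]
  intro j hj
  have h1 := key (J - j) (by omega)
  have e : J - (J - j) = j := by omega
  rw [e] at h1
  have h2 : x * ((J - j : ℕ) : ℝ) ≤ d / 4 := by
    have : ((J - j : ℕ) : ℝ) ≤ J := by exact_mod_cast (by omega : J - j ≤ J)
    nlinarith
  have h3 := hrp (n + p * j)
  have h4 : (1 - d / 4) * r (n + p * j) ≤ 1 - d := by nlinarith
  nlinarith

private lemma exp_le_one_add {x : ℝ} (h0 : 0 ≤ x) (h1 : x ≤ 1) : Real.exp (x / 2) ≤ 1 + x := by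
  have h := Real.exp_bound_div_one_sub_of_interval (x := x / 2) (by linarith) (by linarith)
  refine h.trans ?_
  rw [div_le_iff₀ (by linarith)]
  nlinarith

/-- The growth estimate. -/
private lemma grow {K α β B : ℝ} (hK : 0 < K) (hβ : 0 < β) (hαβ : 2 * β < α) (hB : 0 < B) :
    ∀ᶠ n : ℕ in atTop, K ^ 2 * 2 ^ K * (n : ℝ) ^ (2 * K) <
      Real.exp (((n : ℝ) ^ (-β) * (n : ℝ) ^ α / B - 1) * (n : ℝ) ^ (-β) / 4) := by
  have hx : Tendsto (fun n : ℕ => (n : ℝ)) atTop atTop := tendsto_natCast_atTop_atTop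
  have h1 : Tendsto (fun x : ℝ => x ^ ((α - 2 * β)) / (4 * B) - (2 * K + 1) * Real.log x - 1) atTop atTop := by
    have ha : 0 < α - 2 * β := by linarith
    have h2 : (fun x : ℝ => Real.log x) =o[atTop] fun x => x ^ (α - 2 * β) := isLittleO_log_rpow_atTop ha
    have h3 : ∀ᶠ x : ℝ in atTop, (2 * K + 1) * Real.log x ≤ x ^ (α - 2 * β) / (8 * B) := by
      have h4 := h2.def (c := 1 / (8 * B * (2 * K + 1))) (by positivity)
      filter_upwards [h4, eventually_ge_atTop (1 : ℝ)] with x hx hx1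
      have hl : 0 ≤ Real.log x := Real.log_nonneg hx1
      rw [Real.norm_of_nonneg hl, Real.norm_of_nonneg (by positivity)] at hx
      calc (2 * K + 1) * Real.log x ≤ (2 * K + 1) * (1 / (8 * B * (2 * K + 1)) * x ^ (α - 2 * β)) := by gcongr
        _ = x ^ (α - 2 * β) / (8 * B) := by field_simp
    have h5 : Tendsto (fun x : ℝ => x ^ (α - 2 * β) / (8 * B) - 1) atTop atTop :=
      tendsto_atTop_add_const_right _ _ ((tendsto_rpow_atTop ha).atTop_div_const (by positivity))
    refine tendsto_atTop_mono' _ ?_ h5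
    filter_upwards [h3] with x hx
    have e : x ^ (α - 2 * β) / (4 * B) = x ^ (α - 2 * β) / (8 * B) + x ^ (α - 2 * β) / (8 * B) := by
      field_simp
      ring
    rw [e]
    linarith
  have h6 := (h1.comp hx).eventually_gt_atTop (Real.log (K ^ 2 * 2 ^ K) + 1)
  filter_upwards [h6, eventually_ge_atTop 1] with n hn hn1
  have hn1' : (1 : ℝ) ≤ n := by exact_mod_cast hn1
  have hn0 : (0 : ℝ) < n := by linarith
  have hlog : 0 ≤ Real.log n := Real.log_nonneg hn1'
  simp only [Function.comp] at hn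
  have e1 : K ^ 2 * 2 ^ K * (n : ℝ) ^ (2 * K) = Real.exp (Real.log (K ^ 2 * 2 ^ K) + 2 * K * Real.log n) := by
    rw [Real.exp_add, Real.exp_log (by positivity), mul_comm (2 * K) (Real.log n), ← Real.rpow_def_of_pos hn0]
  rw [e1]
  apply Real.exp_lt_exp.2
  have e2 : ((n : ℝ) ^ (-β) * (n : ℝ) ^ α / B - 1) * (n : ℝ) ^ (-β) / 4 =
      (n : ℝ) ^ (α - 2 * β) / (4 * B) - (n : ℝ) ^ (-β) / 4 := by
    have : (n : ℝ) ^ (α - 2 * β) = (n : ℝ) ^ (-β) * (n : ℝ) ^ α * (n : ℝ) ^ (-β) := by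
      rw [← Real.rpow_add hn0, ← Real.rpow_add hn0]
      congr 1
      ring
    rw [this]
    field_simp
  rw [e2]
  have h7 : (n : ℝ) ^ (-β) ≤ 1 := Real.rpow_le_one_of_one_le_of_nonpos hn1' (by linarith)
  nlinarith

/-- THE RATIO THEOREM WITH RATE, analytic part. -/
theorem ratio_of_conv {c : ℕ → ℝ} (hpos : ∀ n, 0 < c n) {μ K α β b : ℝ} (hμ : 0 < μ) (hK : 0 < K) (hb : 0 < b)
    (hα : α ≤ 1) (hβ : 0 < β) (hαβ : 2 * β < α) {p : ℕ} (hp : 0 < p)
    (hlo : ∀ n : ℕ, 1 ≤ n → (n : ℝ) ^ (-K) / K * μ ^ n ≤ c n) (hup : ∀ n : ℕ, 1 ≤ n → c n ≤ K * (n : ℝ) ^ K * μ ^ n)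
    {n₀ : ℕ} (hcv : ∀ n : ℕ, n₀ ≤ n → (1 - b / (n : ℝ) ^ α) * c (n + p) ^ 2 ≤ c (n + 2 * p) * c n) :
    ∃ A : ℝ, 0 < A ∧ ∀ n : ℕ, 1 ≤ n → |c (n + p) / (μ ^ p * c n) - 1| ≤ A / (n : ℝ) ^ β := by
  set r : ℕ → ℝ := fun n => c (n + p) / (μ ^ p * c n) with hr
  have hα0 : 0 < α := by linarith
  have hrp : ∀ n, 0 < r n := fun n => by
    have h1 := hpos n
    have h2 := hpos (n + p)
    simp only [hr]
    positivity
  -- near convexity for the ratios
  have hstep : ∀ n : ℕ, n₀ ≤ n → (1 - b / (n : ℝ) ^ α) * r n ≤ r (n + p) := by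
    intro n hn
    have h := hcv n hn
    have h1 := hpos n
    have h2 := hpos (n + p)
    have h4 := hpos (n + 2 * p)
    simp only [hr]
    rw [show n + p + p = n + 2 * p by ring, ← mul_div_assoc, div_le_div_iff₀ (by positivity) (by positivity)]
    have : (1 - b / (n : ℝ) ^ α) * c (n + p) * (μ ^ p * c (n + p)) = μ ^ p * ((1 - b / (n : ℝ) ^ α) * c (n + p) ^ 2) := by
      ring
    rw [this]
    calc μ ^ p * ((1 - b / (n : ℝ) ^ α) * c (n + p) ^ 2) ≤ μ ^ p * (c (n + 2 * p) * c n) := by gcongr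
      _ = c (n + 2 * p) * (μ ^ p * c n) := by ring
  -- products of ratios are polynomially bounded
  have hprod : ∀ n J : ℕ, 1 ≤ n → ∏ j ∈ Finset.range J, r (n + p * j) ≤
      K ^ 2 * ((n + p * J : ℕ) : ℝ) ^ K * (n : ℝ) ^ K := by
    intro n J hn
    have e : ∏ j ∈ Finset.range J, r (n + p * j) = c (n + p * J) / (μ ^ (p * J) * c n) := prod_ratio hpos hμ p n J
    rw [e, div_le_iff₀ (by have := hpos n; positivity)]
    have h1 := hup (n + p * J) (by omega)
    have h2 := hlo n hn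
    have hn0 : (0 : ℝ) < n := by exact_mod_cast hn
    refine h1.trans ?_
    have h3 : K * ((n + p * J : ℕ) : ℝ) ^ K * μ ^ (n + p * J) =
        K ^ 2 * ((n + p * J : ℕ) : ℝ) ^ K * (n : ℝ) ^ K * (μ ^ (p * J) * ((n : ℝ) ^ (-K) / K * μ ^ n)) := by
      rw [pow_add, Real.rpow_neg hn0.le]
      have : (n : ℝ) ^ K ≠ 0 := by positivity
      field_simp
    rw [h3]
    gcongr
  have hprod' : ∀ n J : ℕ, 1 ≤ n → 1 ≤ K ^ 2 * ((n + p * J : ℕ) : ℝ) ^ K * (n : ℝ) ^ K *
      ∏ j ∈ Finset.range J, r (n + p * j) := by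
    intro n J hn
    have e : ∏ j ∈ Finset.range J, r (n + p * j) = c (n + p * J) / (μ ^ (p * J) * c n) := prod_ratio hpos hμ p n J
    have hn0 : (0 : ℝ) < n := by exact_mod_cast hn
    have hN0 : (0 : ℝ) < ((n + p * J : ℕ) : ℝ) := by exact_mod_cast (by omega : 0 < n + p * J)
    rw [e, ← mul_div_assoc, le_div_iff₀ (by have := hpos n; positivity), one_mul]
    have h1 := hlo (n + p * J) (by omega)
    have h2 := hup n hn
    calc μ ^ (p * J) * c n ≤ μ ^ (p * J) * (K * (n : ℝ) ^ K * μ ^ n) := by gcongr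
      _ = K ^ 2 * ((n + p * J : ℕ) : ℝ) ^ K * (n : ℝ) ^ K * (((n + p * J : ℕ) : ℝ) ^ (-K) / K * μ ^ (n + p * J)) := by
        rw [pow_add, Real.rpow_neg hN0.le]
        have : (((n + p * J : ℕ) : ℝ)) ^ K ≠ 0 := by positivity
        field_simp
      _ ≤ _ := by gcongr
  set B : ℝ := 8 * b + 2 * p with hB
  have hp' : (0 : ℝ) < p := by exact_mod_cast hp
  have hB0 : 0 < B := by positivity
  have hgrow := grow hK hβ hαβ hB0
  -- the two bounds for large `n`
  have hlarge : ∀ᶠ n : ℕ in atTop, |r n - 1| ≤ 1 / (n : ℝ) ^ β := by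
    filter_upwards [eventually_ge_atTop (2 * n₀ + 2), hgrow] with n hnn₀ hgr
    have hn1 : (1 : ℝ) ≤ n := by exact_mod_cast (by omega : 1 ≤ n)
    have hn0 : (0 : ℝ) < n := by linarith
    set d : ℝ := (n : ℝ) ^ (-β) with hd
    have hd' : 1 / (n : ℝ) ^ β = d := by rw [hd, Real.rpow_neg hn0.le, one_div]
    have hd0 : 0 < d := by rw [hd]; positivity
    have hd1 : d ≤ 1 := Real.rpow_le_one_of_one_le_of_nonpos hn1 (by linarith)
    set m : ℝ := (n : ℝ) ^ α with hm
    have hm0 : 0 < m := by rw [hm]; positivity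
    have hmn : m ≤ n := by
      rw [hm]
      calc (n : ℝ) ^ α ≤ (n : ℝ) ^ (1 : ℝ) := Real.rpow_le_rpow_of_exponent_le hn1 hα
        _ = n := Real.rpow_one _
    rw [hd']
    set J : ℕ := ⌊d * m / B⌋₊ with hJ
    have hJ1 : (J : ℝ) ≤ d * m / B := Nat.floor_le (by positivity)
    have hJ2 : d * m / B < J + 1 := Nat.lt_floor_add_one _
    have hJB : J * B ≤ d * m := by rwa [le_div_iff₀ hB0] at hJ1
    have hJn : 2 * (p * J) ≤ n := by
      have : 2 * ((p : ℝ) * J) ≤ n := by
        have h1 : (J : ℝ) * B ≤ n := by nlinarith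
        have h2 : 0 ≤ (J : ℝ) * (8 * b) := by positivity
        rw [hB] at h1
        nlinarith
      exact_mod_cast this
    have hexp : Real.exp ((d * m / B - 1) * d / 4) ≤ Real.exp (J * d / 4) := by
      apply Real.exp_le_exp.2
      have : (d * m / B - 1) * d ≤ J * d := mul_le_mul_of_nonneg_right (by linarith) hd0.le
      linarith
    -- step with a uniform `x`
    have hxx : ∀ n' : ℕ, n ≤ 2 * n' → 1 - 2 * b / m ≤ 1 - b / (n' : ℝ) ^ α := by
      intro n' hn'
      have hn'0 : (0 : ℝ) < n' := by exact_mod_cast (by omega : 0 < n')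
      have h1 : m ≤ 2 * (n' : ℝ) ^ α := by
        calc m = (n : ℝ) ^ α := hm
          _ ≤ (2 * (n' : ℝ)) ^ α := Real.rpow_le_rpow hn0.le (by exact_mod_cast hn') hα0.le
          _ = 2 ^ α * (n' : ℝ) ^ α := Real.mul_rpow (by norm_num) hn'0.le
          _ ≤ 2 * (n' : ℝ) ^ α := by
            gcongr
            calc (2 : ℝ) ^ α ≤ 2 ^ (1 : ℝ) := Real.rpow_le_rpow_of_exponent_le (by norm_num) hα
              _ = 2 := Real.rpow_one _
      have h2 : b / (n' : ℝ) ^ α ≤ 2 * b / m := by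
        rw [div_le_div_iff₀ (by positivity) hm0]
        nlinarith
      linarith
    have hxJ : 4 * (2 * b / m) * (J : ℝ) ≤ d := by
      have h1 : 4 * (2 * b / m) * (J : ℝ) = J * (8 * b) / m := by ring
      rw [h1, div_le_iff₀ hm0]
      have h2 : 0 ≤ (J : ℝ) * (2 * p) := by positivity
      rw [hB] at hJB
      nlinarith
    have hx0 : 0 ≤ 2 * b / m := by positivity
    rw [abs_le]
    constructor
    · -- lower bound
      by_contra hcon
      push Not at hcon
      have hrn : r n ≤ 1 - d := by linarith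
      set n' : ℕ := n - p * J with hn'
      have hnn' : n' + p * J = n := by omega
      have h2n' : n ≤ 2 * n' := by omega
      have hst := dn_step (r := r) (p := p) (n := n') (J := J) hx0 hd0.le hd1 (fun j hj => by
        refine (mul_le_mul_of_nonneg_right (hxx (n' + p * j) (by omega)) (hrp _).le).trans ?_
        exact hstep _ (by omega)) hrp (by rw [hnn']; exact hrn) hxJ
      have h1 := hprod' n' J (by omega)
      have h2 : ∏ j ∈ Finset.range J, r (n' + p * j) ≤ (1 - d / 2) ^ J := by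
        calc ∏ j ∈ Finset.range J, r (n' + p * j) ≤ ∏ _j ∈ Finset.range J, (1 - d / 2) :=
              Finset.prod_le_prod (fun j _ => (hrp _).le) fun j hj => hst j (Finset.mem_range.1 hj).le
          _ = (1 - d / 2) ^ J := by simp
      have h3 : (1 - d / 2) ^ J ≤ Real.exp (-(J * d / 4)) := by
        have h4 : 1 - d / 2 ≤ Real.exp (-(d / 4)) := by
          have := Real.add_one_le_exp (-(d / 2))
          have h5 : Real.exp (-(d / 2)) ≤ Real.exp (-(d / 4)) := Real.exp_le_exp.2 (by linarith)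
          linarith
        calc (1 - d / 2) ^ J ≤ Real.exp (-(d / 4)) ^ J := pow_le_pow_left₀ (by linarith) h4 _
          _ = Real.exp (-(J * d / 4)) := by
            rw [← Real.exp_nat_mul]
            congr 1
            ring
      have hn'n : (n' : ℝ) ≤ n := by exact_mod_cast (by omega : n' ≤ n)
      have h6 : K ^ 2 * ((n' + p * J : ℕ) : ℝ) ^ K * (n' : ℝ) ^ K ≤ K ^ 2 * 2 ^ K * (n : ℝ) ^ (2 * K) := by
        rw [hnn', two_mul K, Real.rpow_add hn0]
        have h7 : (n' : ℝ) ^ K ≤ (n : ℝ) ^ K := Real.rpow_le_rpow (by positivity) hn'n hK.le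
        have h8 : (1 : ℝ) ≤ 2 ^ K := Real.one_le_rpow (by norm_num) hK.le
        calc K ^ 2 * (n : ℝ) ^ K * (n' : ℝ) ^ K ≤ K ^ 2 * (n : ℝ) ^ K * (n : ℝ) ^ K := by gcongr
          _ ≤ 2 ^ K * (K ^ 2 * (n : ℝ) ^ K * (n : ℝ) ^ K) := le_mul_of_one_le_left (by positivity) h8
          _ = _ := by ring
      have h9 : (1 : ℝ) ≤ K ^ 2 * 2 ^ K * (n : ℝ) ^ (2 * K) * Real.exp (-(J * d / 4)) := by
        refine h1.trans (mul_le_mul h6 (h2.trans h3) ?_ (by positivity))
        exact Finset.prod_nonneg fun j _ => (hrp _).le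
      rw [Real.exp_neg, ← div_eq_mul_inv, le_div_iff₀ (Real.exp_pos _), one_mul] at h9
      linarith
    · -- upper bound
      by_contra hcon
      push Not at hcon
      have hrn : 1 + d ≤ r n := by linarith
      have hst := up_step (r := r) (p := p) (n := n) (J := J) hx0 hd0.le hd1 (fun j hj => by
        refine (mul_le_mul_of_nonneg_right (hxx (n + p * j) (by omega)) (hrp _).le).trans ?_
        exact hstep _ (by omega)) hrn hxJ
      have h1 := hprod n J (by omega)
      have h2 : (1 + d / 2) ^ J ≤ ∏ j ∈ Finset.range J, r (n + p * j) := by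
        calc (1 + d / 2) ^ J = ∏ _j ∈ Finset.range J, (1 + d / 2) := by simp
          _ ≤ _ := Finset.prod_le_prod (fun j _ => by linarith) fun j hj => hst j (Finset.mem_range.1 hj).le
      have h3 : Real.exp (J * d / 4) ≤ (1 + d / 2) ^ J := by
        have h4 : Real.exp (d / 2 / 2) ≤ 1 + d / 2 := exp_le_one_add (by linarith) (by linarith)
        calc Real.exp (J * d / 4) = Real.exp (d / 2 / 2) ^ J := by
              rw [← Real.exp_nat_mul]
              congr 1
              ring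
          _ ≤ (1 + d / 2) ^ J := pow_le_pow_left₀ (Real.exp_pos _).le h4 _
      have h5 : ((n + p * J : ℕ) : ℝ) ≤ 2 * n := by exact_mod_cast (by omega : n + p * J ≤ 2 * n)
      have h6 : K ^ 2 * ((n + p * J : ℕ) : ℝ) ^ K * (n : ℝ) ^ K ≤ K ^ 2 * 2 ^ K * (n : ℝ) ^ (2 * K) := by
        rw [two_mul K, Real.rpow_add hn0]
        have h7 : ((n + p * J : ℕ) : ℝ) ^ K ≤ (2 * (n : ℝ)) ^ K := Real.rpow_le_rpow (by positivity) h5 hK.le
        rw [Real.mul_rpow (by norm_num) hn0.le] at h7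
        calc K ^ 2 * ((n + p * J : ℕ) : ℝ) ^ K * (n : ℝ) ^ K ≤ K ^ 2 * (2 ^ K * (n : ℝ) ^ K) * (n : ℝ) ^ K := by gcongr
          _ = _ := by ring
      linarith
  -- small `n`
  obtain ⟨n₁, hn₁⟩ := eventually_atTop.1 hlarge
  refine ⟨1 + ∑ n ∈ Finset.range n₁, |r n - 1| * (n : ℝ) ^ β, ?_, ?_⟩
  · have : 0 ≤ ∑ n ∈ Finset.range n₁, |r n - 1| * (n : ℝ) ^ β := Finset.sum_nonneg fun n _ => by positivity
    linarith
  · intro n hn
    have hnb : 0 < (n : ℝ) ^ β := by
      have : (0 : ℝ) < n := by exact_mod_cast hn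
      positivity
    rw [le_div_iff₀ hnb]
    have hs : ∀ n ∈ Finset.range n₁, 0 ≤ |r n - 1| * (n : ℝ) ^ β := fun n _ => by positivity
    by_cases h : n < n₁
    · have := Finset.single_le_sum hs (Finset.mem_range.2 h)
      simp only [hr] at this ⊢
      linarith
    · have h1 := hn₁ n (by omega)
      rw [le_div_iff₀ hnb] at h1
      have := Finset.sum_nonneg hs
      simp only [hr] at this h1 ⊢
      linarith

end Pool.Agent.RAT
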