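import Pool.Agent.RAT.A.Flips

/-!
Project RAT (A4): several steps of the ratio theorem, forwards and backwards.
-/

namespace Pool.Agent.RAT

private lemma pow_bounds {x : ℝ} (hx : 0 ≤ x) (j : ℕ) (hj : j * x ≤ 1 / 2) :
    (1 + x) ^ j ≤ 1 + 2 * (j * x) ∧ 1 - j * x ≤ (1 - x) ^ j := by
  constructor
  · have h1 : (1 + x) ^ j ≤ Real.exp (j * x) := by
      rw [Real.exp_nat_mul]
      exact pow_le_pow_left₀ (by linarith) (by linarith [Real.add_one_le_exp x]) _
    have h0 : 0 ≤ j * x := by positivity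
    have h2 := Real.exp_bound_div_one_sub_of_interval (x := j * x) h0 (by linarith)
    have h3 : 1 / (1 - j * x) ≤ 1 + 2 * (j * x) := by
      rw [div_le_iff₀ (by linarith)]
      nlinarith
    linarith
  · rcases Nat.eq_zero_or_pos j with h0 | h0
    · subst h0
      simp
    · have hj1 : (1 : ℝ) ≤ j := by exact_mod_cast h0
      have hx1 : x ≤ 1 / 2 := by nlinarith
      have := one_add_mul_le_pow (a := -x) (by linarith) j
      calc 1 - j * x = 1 + j * (-x) := by ring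
        _ ≤ (1 + -x) ^ j := this
        _ = _ := by ring

/-- Several steps forwards. -/
theorem ratio_mul {c : ℕ → ℝ} (hpos : ∀ n, 0 < c n) {μ A β : ℝ} (hμ : 0 < μ) (hA : 0 ≤ A) (hβ : 0 ≤ β) {p : ℕ}
    (h : ∀ n : ℕ, 1 ≤ n → |c (n + p) / (μ ^ p * c n) - 1| ≤ A / (n : ℝ) ^ β) (n j : ℕ) (hn : 1 ≤ n)
    (hj : 2 * A * j ≤ (n : ℝ) ^ β) :
    |c (n + p * j) / (μ ^ (p * j) * c n) - 1| ≤ 2 * A * j / (n : ℝ) ^ β := by
  have hn0 : (0 : ℝ) < n := by exact_mod_cast hn
  have hnb : 0 < (n : ℝ) ^ β := by positivity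
  set x : ℝ := A / (n : ℝ) ^ β with hx
  have hx0 : 0 ≤ x := by positivity
  have hjx : j * x ≤ 1 / 2 := by
    rw [hx, ← mul_div_assoc, div_le_iff₀ hnb]
    linarith
  obtain ⟨hu, hl⟩ := pow_bounds hx0 j hjx
  have he := prod_ratio hpos hμ p n j
  rw [← he]
  have hterm : ∀ i ∈ Finset.range j, |c (n + p * i + p) / (μ ^ p * c (n + p * i)) - 1| ≤ x := by
    intro i _
    refine (h (n + p * i) (by omega)).trans ?_
    rw [hx]
    have : (n : ℝ) ≤ ((n + p * i : ℕ) : ℝ) := by exact_mod_cast (by omega : n ≤ n + p * i)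
    gcongr
  have hxj : 2 * A * j / (n : ℝ) ^ β = 2 * (j * x) := by
    rw [hx]
    ring
  rw [hxj, abs_le]
  constructor
  · have h1 : (1 - x) ^ j ≤ ∏ i ∈ Finset.range j, c (n + p * i + p) / (μ ^ p * c (n + p * i)) := by
      rcases Nat.eq_zero_or_pos j with h0 | h0
      · subst h0
        simp
      · have hj1 : (1 : ℝ) ≤ j := by exact_mod_cast h0
        have hx1 : x ≤ 1 := by nlinarith
        calc (1 - x) ^ j = ∏ _i ∈ Finset.range j, (1 - x) := by simp
          _ ≤ _ := Finset.prod_le_prod (fun i _ => by linarith) fun i hi => by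
              have := (abs_le.1 (hterm i hi)).1
              linarith
    have h2 : 0 ≤ j * x := by positivity
    linarith
  · have h1 : ∏ i ∈ Finset.range j, c (n + p * i + p) / (μ ^ p * c (n + p * i)) ≤ (1 + x) ^ j := by
      calc _ ≤ ∏ _i ∈ Finset.range j, (1 + x) := Finset.prod_le_prod (fun i _ => by
              have h1 := hpos (n + p * i)
              have h2 := hpos (n + p * i + p)
              positivity) fun i hi => by
              have := (abs_le.1 (hterm i hi)).2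
              linarith
        _ = (1 + x) ^ j := by simp
    linarith

/-- Several steps backwards. -/
theorem ratio_mul_back {c : ℕ → ℝ} (hpos : ∀ n, 0 < c n) {μ A β : ℝ} (hμ : 0 < μ) (hA : 0 ≤ A) (hβ : 0 ≤ β)
    (hβ1 : β ≤ 1) {p : ℕ}
    (h : ∀ n : ℕ, 1 ≤ n → |c (n + p) / (μ ^ p * c n) - 1| ≤ A / (n : ℝ) ^ β) (n j : ℕ) (hn : 1 ≤ n)
    (hpj : 2 * (p * j) ≤ n) (hj : 8 * A * j ≤ (n : ℝ) ^ β) :
    |μ ^ (p * j) * c (n - p * j) / c n - 1| ≤ 8 * A * j / (n : ℝ) ^ β := by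
  set n' : ℕ := n - p * j with hn'
  have hnn' : n' + p * j = n := by omega
  have hn'1 : 1 ≤ n' := by omega
  have hn0 : (0 : ℝ) < n := by exact_mod_cast hn
  have hn'0 : (0 : ℝ) < n' := by exact_mod_cast hn'1
  have h2 : (n : ℝ) ≤ 2 * n' := by exact_mod_cast (by omega : n ≤ 2 * n')
  have h3 : (n : ℝ) ^ β ≤ 2 * (n' : ℝ) ^ β := by
    calc (n : ℝ) ^ β ≤ (2 * (n' : ℝ)) ^ β := Real.rpow_le_rpow hn0.le h2 hβ
      _ = 2 ^ β * (n' : ℝ) ^ β := Real.mul_rpow (by norm_num) hn'0.le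
      _ ≤ 2 * (n' : ℝ) ^ β := by
        gcongr
        calc (2 : ℝ) ^ β ≤ 2 ^ (1 : ℝ) := Real.rpow_le_rpow_of_exponent_le (by norm_num) hβ1
          _ = 2 := Real.rpow_one _
  have hjA : 0 ≤ A * j := by positivity
  have hb := ratio_mul hpos hμ hA hβ h n' j hn'1 (by linarith)
  rw [hnn'] at hb
  set y : ℝ := c n / (μ ^ (p * j) * c n') with hy
  have hc := hpos n
  have hc' := hpos n'
  have hy0 : 0 < y := by positivity
  have hinv : μ ^ (p * j) * c n' / c n = 1 / y := by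
    rw [hy, one_div_div]
  rw [hinv]
  have hnb : 0 < (n : ℝ) ^ β := by positivity
  have hnb' : 0 < (n' : ℝ) ^ β := by positivity
  have h4 : 2 * A * j / (n' : ℝ) ^ β ≤ 4 * A * j / (n : ℝ) ^ β := by
    rw [div_le_div_iff₀ hnb' hnb]
    nlinarith
  have h5 : 4 * A * j / (n : ℝ) ^ β ≤ 1 / 2 := by
    rw [div_le_iff₀ hnb]
    linarith
  have h6 : |y - 1| ≤ 4 * A * j / (n : ℝ) ^ β := hb.trans h4
  have h7 : 1 / 2 ≤ y := by
    have := (abs_le.1 h6).1
    linarith
  have h8 : |1 / y - 1| = |y - 1| / y := by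
    have : 1 / y - 1 = -(y - 1) / y := by
      field_simp
      ring
    rw [this, abs_div, abs_neg, abs_of_pos hy0]
  rw [h8, div_le_iff₀ hy0]
  have h9 : 8 * A * j / (n : ℝ) ^ β = 2 * (4 * A * j / (n : ℝ) ^ β) := by ring
  rw [h9]
  have h10 : 0 ≤ 4 * A * j / (n : ℝ) ^ β := by positivity
  nlinarith

end Pool.Agent.RAT
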