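import Pool.Agent.RAT.A.Mul
import Pool.Agent.RAT.G.Api

/-!
Project RAT (A5): the ratio theorem for `cn b n` (`b = false`: plane, `b = true`: half plane), from the polynomial
bounds and the bad sets.
-/

namespace Pool.Agent.RAT

theorem ratio_cn (b : Bool) {μ K α β : ℝ} (hμ : 0 < μ) (hK : 0 < K) (hα : α ≤ 1) (hβ : 0 < β) (hαβ : 2 * β < α)
    (hlo : ∀ n : ℕ, 1 ≤ n → (n : ℝ) ^ (-K) / K * μ ^ n ≤ (cn b n : ℝ))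
    (hup : ∀ n : ℕ, 1 ≤ n → (cn b n : ℝ) ≤ K * (n : ℝ) ^ K * μ ^ n)
    (hbad : ∀ k : ℕ, ∃ n₀ : ℕ, ∀ n : ℕ, n₀ ≤ n →
      (n : ℝ) ^ k * (((WF b n).filter fun P => (thin b P : ℝ) < (n : ℝ) ^ α ∨ (fat b P : ℝ) < (n : ℝ) ^ α).card : ℝ) ≤
        (cn b n : ℝ)) :
    ∃ A : ℝ, 0 < A ∧ ∀ n : ℕ, 1 ≤ n → |(cn b (n + 4) : ℝ) / (μ ^ 4 * (cn b n : ℝ)) - 1| ≤ A / (n : ℝ) ^ β :=
  ratio_of_flip (WF b) (thin b) (fat b) (p := 4) (by norm_num) hμ hK hα hβ hαβ (fun n => cn_pos b n) hlo hup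
    (fun _ _ h => thin_le h) (fun n G => flip_sum b n G) hbad

end Pool.Agent.RAT
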